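import Pool.Agent.Helper42.LK.Defs

open Filter Topology

namespace Pool.Agent.Helper42.LK

open Pool.Agent.Helper42.LS

theorem c0_key (A B x : ℂ) :
    (3 * x ^ 2 + 4 * A) * th A B x - (3 * x ^ 3 - 5 * A * x - 27 * B) * cu A B x = dsc A B := by
  unfold th cu dsc; ring

/-- core inequality -/
theorem c0_core (a : ℝ) (ha : 1 ≤ a) : ∃ K : ℝ, 1 ≤ K ∧ ∀ (A B X : ℂ) (R : ℝ), 0 < R →
    ‖A‖ ≤ a * R ^ 2 → ‖B‖ ≤ a ^ 2 * R ^ 3 → ‖dsc A B‖ = R ^ 6 →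
    (max ‖X‖ R) ^ 4 ≤ K * max ‖th A B X‖ (R * ‖4 * cu A B X‖) := by
  set c : ℝ := 4 * a with hc
  set M : ℝ := (3 * c ^ 2 + 4 * a) + (3 * c ^ 3 + 5 * a * c + 27 * a ^ 2) with hM
  have hc0 : 0 < c := by positivity
  have hM0 : 0 < M := by positivity
  refine ⟨2 + c ^ 4 * M, by nlinarith [mul_pos (pow_pos hc0 4) hM0], ?_⟩
  intro A B X R hR hA hB hD
  set m := max ‖th A B X‖ (R * ‖4 * cu A B X‖) with hm
  have hm1 : ‖th A B X‖ ≤ m := le_max_left _ _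
  have hm2 : R * ‖4 * cu A B X‖ ≤ m := le_max_right _ _
  have hm0 : 0 ≤ m := (norm_nonneg _).trans hm1
  have hcM : 0 ≤ c ^ 4 * M := by positivity
  by_cases hX : c * R ≤ ‖X‖
  · have hXR : R ≤ ‖X‖ := le_trans (by nlinarith) hX
    rw [max_eq_left hXR]
    have hX0 : 0 < ‖X‖ := lt_of_lt_of_le hR hXR
    have hA16 : ‖A‖ ≤ (1 / 16) * ‖X‖ ^ 2 := by
      have h3 : (c * R) ^ 2 ≤ ‖X‖ ^ 2 := pow_le_pow_left₀ (by positivity) hX 2
      have h4 : 16 * (a * R ^ 2) ≤ (c * R) ^ 2 := by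
        rw [hc]; nlinarith [mul_nonneg (by linarith : (0:ℝ) ≤ a - 1) (by positivity : 0 ≤ a * R ^ 2)]
      linarith
    have h1 : ‖2 * A * X ^ 2‖ ≤ (1 / 8) * ‖X‖ ^ 4 := by
      rw [norm_mul, norm_mul, norm_pow, Complex.norm_ofNat]
      nlinarith [mul_le_mul_of_nonneg_right hA16 (by positivity : 0 ≤ ‖X‖ ^ 2)]
    have h2 : ‖8 * B * X‖ ≤ (1 / 8) * ‖X‖ ^ 4 := by
      rw [norm_mul, norm_mul, Complex.norm_ofNat]
      have h2 : ‖B‖ ≤ (1 / 64) * ‖X‖ ^ 3 := by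
        have h3 : (c * R) ^ 3 ≤ ‖X‖ ^ 3 := pow_le_pow_left₀ (by positivity) hX 3
        have h4 : 64 * (a ^ 2 * R ^ 3) ≤ (c * R) ^ 3 := by
          rw [hc]
          nlinarith [mul_nonneg (by linarith : (0:ℝ) ≤ a - 1) (by positivity : 0 ≤ a ^ 2 * R ^ 3)]
        linarith
      nlinarith [mul_le_mul_of_nonneg_right h2 (by positivity : 0 ≤ ‖X‖)]
    have h5 : ‖A ^ 2‖ ≤ (1 / 256) * ‖X‖ ^ 4 := by
      rw [norm_pow]
      have := pow_le_pow_left₀ (norm_nonneg _) hA16 2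
      nlinarith
    have h4 : ‖X‖ ^ 4 ≤ 2 * ‖th A B X‖ := by
      have h6 : X ^ 4 = th A B X + 2 * A * X ^ 2 + 8 * B * X - A ^ 2 := by unfold th; ring
      have h7 : ‖X‖ ^ 4 ≤ ‖th A B X‖ + ‖2 * A * X ^ 2‖ + ‖8 * B * X‖ + ‖A ^ 2‖ := by
        rw [← norm_pow, h6]
        refine (norm_sub_le _ _).trans ?_
        have h8 := norm_add_le (th A B X + 2 * A * X ^ 2) (8 * B * X)
        have h9 := norm_add_le (th A B X) (2 * A * X ^ 2)
        linarith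
      have h10 : 0 ≤ ‖X‖ ^ 4 := by positivity
      linarith
    calc ‖X‖ ^ 4 ≤ 2 * ‖th A B X‖ := h4
      _ ≤ 2 * m := by linarith
      _ ≤ (2 + c ^ 4 * M) * m := by nlinarith [mul_nonneg hcM hm0]
  · have hX' : ‖X‖ ≤ c * R := (not_le.mp hX).le
    have hmax : max ‖X‖ R ≤ c * R := max_le hX' (by nlinarith)
    have h1 : (max ‖X‖ R) ^ 4 ≤ c ^ 4 * R ^ 4 := by
      rw [← mul_pow]
      exact pow_le_pow_left₀ (le_trans hR.le (le_max_right _ _)) hmax 4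
    have hkey := c0_key A B X
    have h2 : R ^ 6 ≤ (3 * c ^ 2 + 4 * a) * R ^ 2 * ‖th A B X‖ +
        (3 * c ^ 3 + 5 * a * c + 27 * a ^ 2) * R ^ 3 * ‖cu A B X‖ := by
      rw [← hD, ← hkey]
      refine (norm_sub_le _ _).trans ?_
      rw [norm_mul, norm_mul]
      have h3 : ‖3 * X ^ 2 + 4 * A‖ ≤ (3 * c ^ 2 + 4 * a) * R ^ 2 := by
        refine (norm_add_le _ _).trans ?_
        rw [norm_mul, norm_mul, norm_pow, Complex.norm_ofNat, Complex.norm_ofNat]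
        have h4 : ‖X‖ ^ 2 ≤ (c * R) ^ 2 := pow_le_pow_left₀ (norm_nonneg _) hX' 2
        nlinarith
      have h4 : ‖3 * X ^ 3 - 5 * A * X - 27 * B‖ ≤
          (3 * c ^ 3 + 5 * a * c + 27 * a ^ 2) * R ^ 3 := by
        refine (norm_sub_le _ _).trans ?_
        have h5 := norm_sub_le (3 * X ^ 3) (5 * A * X)
        rw [norm_mul, norm_mul (5 * A), norm_mul 5, norm_pow, Complex.norm_ofNat,
          Complex.norm_ofNat] at h5
        rw [norm_mul 27, Complex.norm_ofNat]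
        have h6 : ‖X‖ ^ 3 ≤ (c * R) ^ 3 := pow_le_pow_left₀ (norm_nonneg _) hX' 3
        have h7 : ‖A‖ * ‖X‖ ≤ (a * R ^ 2) * (c * R) :=
          mul_le_mul hA hX' (norm_nonneg _) (by positivity)
        nlinarith
      exact add_le_add (mul_le_mul_of_nonneg_right h3 (norm_nonneg _))
        (mul_le_mul_of_nonneg_right h4 (norm_nonneg _))
    have h3 : ‖4 * cu A B X‖ = 4 * ‖cu A B X‖ := by
      rw [norm_mul, Complex.norm_ofNat]
    rw [h3] at hm2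
    have h4 : R ^ 6 ≤ R ^ 2 * (M * m) := by
      have h5 : R * ‖cu A B X‖ ≤ m := by nlinarith [mul_nonneg hR.le (norm_nonneg (cu A B X))]
      have h6 : (3 * c ^ 2 + 4 * a) * R ^ 2 * ‖th A B X‖ ≤ (3 * c ^ 2 + 4 * a) * R ^ 2 * m :=
        mul_le_mul_of_nonneg_left hm1 (by positivity)
      have h7 : (3 * c ^ 3 + 5 * a * c + 27 * a ^ 2) * R ^ 3 * ‖cu A B X‖ ≤
          (3 * c ^ 3 + 5 * a * c + 27 * a ^ 2) * R ^ 2 * m := by
        have := mul_le_mul_of_nonneg_left h5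
          (by positivity : 0 ≤ (3 * c ^ 3 + 5 * a * c + 27 * a ^ 2) * R ^ 2)
        calc _ = (3 * c ^ 3 + 5 * a * c + 27 * a ^ 2) * R ^ 2 * (R * ‖cu A B X‖) := by ring
          _ ≤ _ := this
      calc R ^ 6 ≤ _ := h2
        _ ≤ (3 * c ^ 2 + 4 * a) * R ^ 2 * m + (3 * c ^ 3 + 5 * a * c + 27 * a ^ 2) * R ^ 2 * m :=
          add_le_add h6 h7
        _ = R ^ 2 * (M * m) := by rw [hM]; ring
    have h5 : R ^ 4 ≤ M * m := by
      have h6 : R ^ 2 * R ^ 4 ≤ R ^ 2 * (M * m) := by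
        calc R ^ 2 * R ^ 4 = R ^ 6 := by ring
          _ ≤ _ := h4
      exact le_of_mul_le_mul_left h6 (by positivity)
    calc (max ‖X‖ R) ^ 4 ≤ c ^ 4 * R ^ 4 := h1
      _ ≤ c ^ 4 * (M * m) := mul_le_mul_of_nonneg_left h5 (by positivity)
      _ ≤ (2 + c ^ 4 * M) * m := by nlinarith

/-- duplication with the tangent formula -/
theorem c0_dbl {A B : ℂ} {X Y : ℕ → ℂ} (h : GSeq (0 : ℂ) A B X Y) (k : ℕ) (hk : 1 ≤ k) :
    Y k ^ 2 = cu A B (X k) ∧ X (2 * k) * (4 * Y k ^ 2) = th A B (X k) := by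
  have h1 := h.curve k hk
  have h2 := h.yne k hk
  have h3 := h.dblx k hk
  have h4 : Y k ^ 2 = cu A B (X k) := by rw [h1]; unfold cu; ring
  refine ⟨h4, ?_⟩
  rw [h3]
  have h5 : (((3 * X k ^ 2 + 2 * 0 * X k + A) / (2 * Y k)) ^ 2 - 0 - 2 * X k) * (4 * Y k ^ 2) =
      (3 * X k ^ 2 + A) ^ 2 - 8 * X k * Y k ^ 2 := by
    field_simp
    ring
  rw [h5, h4]
  unfold th cu
  ring

theorem st_C0 : ST_C0 := by
  intro J₀
  set a : ℝ := max 1 J₀ with ha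
  have ha1 : 1 ≤ a := le_max_left _ _
  have haJ : J₀ ≤ a := le_max_right _ _
  obtain ⟨K, hK1, hK⟩ := c0_core a ha1
  refine ⟨Real.log K, ?_⟩
  intro A B hD hA X Y hG
  have hDpos : 0 < ‖dsc A B‖ := norm_pos_iff.mpr hD
  set R : ℝ := ‖dsc A B‖ ^ (1 / 6 : ℝ) with hR
  have hRpos : 0 < R := Real.rpow_pos_of_pos hDpos _
  have hR6 : ‖dsc A B‖ = R ^ 6 := by
    rw [hR, ← Real.rpow_natCast, ← Real.rpow_mul hDpos.le]
    norm_num
  have hA3 : ‖A‖ ^ 3 ≤ (a * R ^ 2) ^ 3 := by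
    rw [norm_mul, norm_pow, Complex.norm_ofNat, hR6] at hA
    have h1 : J₀ * R ^ 6 ≤ a * R ^ 6 := mul_le_mul_of_nonneg_right haJ (by positivity)
    have h2 : a * R ^ 6 ≤ a ^ 3 * R ^ 6 := by
      refine mul_le_mul_of_nonneg_right ?_ (by positivity)
      nlinarith [mul_nonneg (by linarith : (0:ℝ) ≤ a - 1) (by linarith : (0:ℝ) ≤ a),
        mul_nonneg (mul_nonneg (by linarith : (0:ℝ) ≤ a - 1) (by linarith : (0:ℝ) ≤ a))
          (by linarith : (0:ℝ) ≤ a)]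
    have h3 : (a * R ^ 2) ^ 3 = a ^ 3 * R ^ 6 := by ring
    rw [h3]
    have h4 : 0 ≤ ‖A‖ ^ 3 := by positivity
    nlinarith
  have hAa : ‖A‖ ≤ a * R ^ 2 := le_of_pow_le_pow_left₀ (by norm_num) (by positivity) hA3
  have hBb : ‖B‖ ≤ a ^ 2 * R ^ 3 := by
    have h1 : 27 * ‖B‖ ^ 2 ≤ R ^ 6 + 4 * ‖A‖ ^ 3 := by
      have h2 : 27 * B ^ 2 = dsc A B - 4 * A ^ 3 := by unfold dsc; ring
      have h3 : ‖27 * B ^ 2‖ = 27 * ‖B‖ ^ 2 := by rw [norm_mul, norm_pow, Complex.norm_ofNat]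
      have h4 : ‖4 * A ^ 3‖ = 4 * ‖A‖ ^ 3 := by rw [norm_mul, norm_pow, Complex.norm_ofNat]
      rw [← h3, ← h4, h2, ← hR6]
      exact norm_sub_le _ _
    have h3 : (a * R ^ 2) ^ 3 = a ^ 3 * R ^ 6 := by ring
    rw [h3] at hA3
    have h5 : a ^ 3 ≤ a ^ 4 := pow_le_pow_right₀ ha1 (by norm_num)
    have h6 : 1 ≤ a ^ 4 := one_le_pow₀ ha1
    have h7 : ‖B‖ ^ 2 ≤ (a ^ 2 * R ^ 3) ^ 2 := by
      have h8 : (a ^ 2 * R ^ 3) ^ 2 = a ^ 4 * R ^ 6 := by ring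
      rw [h8]
      have hR6' : 0 < R ^ 6 := by positivity
      nlinarith [mul_le_mul_of_nonneg_right h5 hR6'.le, mul_le_mul_of_nonneg_right h6 hR6'.le]
    exact le_of_pow_le_pow_left₀ (by norm_num) (by positivity) h7
  refine ⟨fun k => Real.log (max ‖X k‖ R), ?_, ?_, ?_⟩
  · intro k hk
    obtain ⟨h1, h2⟩ := c0_dbl hG k hk
    have hY : 0 < ‖4 * Y k ^ 2‖ := by
      have := hG.yne k hk
      exact norm_pos_iff.mpr (mul_ne_zero (by norm_num) (pow_ne_zero 2 this))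
    have h3 := hK A B (X k) R hRpos hAa hBb hR6
    have hm : max ‖th A B (X k)‖ (R * ‖4 * cu A B (X k)‖) =
        max ‖X (2 * k)‖ R * ‖4 * Y k ^ 2‖ := by
      rw [← h1, ← h2, norm_mul, max_mul_of_nonneg _ _ hY.le]
    rw [hm] at h3
    have hmp : 0 < max ‖X k‖ R := lt_of_lt_of_le hRpos (le_max_right _ _)
    have hmp2 : 0 < max ‖X (2 * k)‖ R := lt_of_lt_of_le hRpos (le_max_right _ _)
    have hK0 : 0 < K := lt_of_lt_of_le one_pos hK1
    have h4 := Real.log_le_log (by positivity) h3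
    rw [Real.log_pow, Real.log_mul hK0.ne' (mul_pos hmp2 hY).ne',
      Real.log_mul hmp2.ne' hY.ne'] at h4
    push_cast at h4
    show 4 * Real.log (max ‖X k‖ R) - Real.log K ≤ Real.log (max ‖X (2 * k)‖ R) + _
    linarith
  · refine ⟨Real.log (max R 1), fun k hk => ?_⟩
    have h1 : 0 < max ‖X k‖ 1 := lt_of_lt_of_le one_pos (le_max_right _ _)
    have h2 : 0 < max R 1 := lt_of_lt_of_le one_pos (le_max_right _ _)
    rw [← Real.log_mul h1.ne' h2.ne']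
    refine Real.log_le_log (lt_of_lt_of_le hRpos (le_max_right _ _)) (max_le ?_ ?_)
    · calc ‖X k‖ ≤ max ‖X k‖ 1 := le_max_left _ _
        _ = max ‖X k‖ 1 * 1 := (mul_one _).symm
        _ ≤ _ := mul_le_mul_of_nonneg_left (le_max_right _ _) h1.le
    · calc R ≤ max R 1 := le_max_left _ _
        _ = 1 * max R 1 := (one_mul _).symm
        _ ≤ _ := mul_le_mul_of_nonneg_right (le_max_right _ _) h2.le
  · intro k hk
    have h1 : Real.log R = 1 / 6 * Real.log ‖dsc A B‖ := by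
      rw [hR, Real.log_rpow hDpos]
    have h2 : 0 ≤ Real.log K := Real.log_nonneg hK1
    have h3 : Real.log R ≤ Real.log (max ‖X k‖ R) := Real.log_le_log hRpos (le_max_right _ _)
    rw [← h1]
    show _ ≤ Real.log (max ‖X k‖ R)
    linarith

end Pool.Agent.Helper42.LK
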