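import Pool.Agent.Helper33.LK.KPD

open Filter Topology

namespace Pool.Agent.Helper42.LK

open Pool.Agent.Helper42.LS

theorem kpm_alp_bounds {F : Type} [Field F] (μ : DV F) (N : ℕ) (X : F) : 0 ≤ alpK μ N X ∧ alpK μ N X ≤ (N : ℝ) / 2 := by
  have hN : (0 : ℝ) ≤ (N : ℝ) := by positivity
  unfold alpK
  split_ifs with h
  · constructor <;> linarith
  · exact ⟨le_max_left _ _, max_le (by linarith) (min_le_right _ _)⟩

theorem kpm_alp_int {F : Type} [Field F] (μ : DV F) (N : ℕ) (X : F) : ∃ a : ℤ, 2 * alpK μ N X = a := by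
  unfold alpK
  split_ifs with h
  · exact ⟨N, by push_cast; ring⟩
  · rcases le_total (μ.ord X : ℝ) ((N : ℝ) / 2) with h1 | h1
    · rw [min_eq_left h1]
      rcases le_total (0 : ℝ) (μ.ord X : ℝ) with h2 | h2
      · rw [max_eq_right h2]
        exact ⟨2 * μ.ord X, by push_cast; ring⟩
      · rw [max_eq_left h2]
        exact ⟨0, by simp⟩
    · rw [min_eq_right h1, max_eq_right (by positivity)]
      exact ⟨N, by push_cast; ring⟩

theorem kpm_nd_b2 (t : ℝ) : nd t * (1 - nd t) = 1 / 6 - B2 t := by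
  unfold nd B2
  rcases le_total (Int.fract t) (1 - Int.fract t) with h | h
  · rw [min_eq_left h]
    ring
  · rw [min_eq_right h]
    ring

/-- sum and product formulas, shifted coordinates -/
theorem kpm_sp {F : Type} [Field F] (c d e X1 X2 X3 X4 y1 y2 : F) (hne : X1 ≠ X2)
    (h1 : y1 ^ 2 = X1 ^ 3 + c * X1 ^ 2 + d * X1 + e) (h2 : y2 ^ 2 = X2 ^ 3 + c * X2 ^ 2 + d * X2 + e)
    (h3 : X3 = ((y1 - y2) / (X1 - X2)) ^ 2 - c - X1 - X2)
    (h4 : X4 = ((y1 + y2) / (X1 - X2)) ^ 2 - c - X1 - X2) :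
    (X3 + X4) * (X1 - X2) ^ 2 = 2 * ((X1 + X2) * (d + X1 * X2) + 2 * c * X1 * X2 + 2 * e) ∧
    X3 * X4 * (X1 - X2) ^ 2 = (X1 * X2 - d) ^ 2 - 4 * e * (X1 + X2 + c) := by
  have hD : X1 - X2 ≠ 0 := sub_ne_zero.mpr hne
  have e3 : X3 * (X1 - X2) ^ 2 = (y1 - y2) ^ 2 - (c + X1 + X2) * (X1 - X2) ^ 2 := by
    rw [h3]
    field_simp
    ring
  have e4 : X4 * (X1 - X2) ^ 2 = (y1 + y2) ^ 2 - (c + X1 + X2) * (X1 - X2) ^ 2 := by
    rw [h4]
    field_simp
    ring
  constructor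
  · linear_combination e3 + e4 + 2 * h1 + 2 * h2
  · have hD2 : (X1 - X2) ^ 2 ≠ 0 := pow_ne_zero 2 hD
    apply mul_right_cancel₀ hD2
    have e5 : X3 * X4 * (X1 - X2) ^ 2 * (X1 - X2) ^ 2 = (X3 * (X1 - X2) ^ 2) * (X4 * (X1 - X2) ^ 2) := by
      ring
    rw [e5, e3, e4]
    have e6 : ((y1 - y2) ^ 2 - (c + X1 + X2) * (X1 - X2) ^ 2) *
        ((y1 + y2) ^ 2 - (c + X1 + X2) * (X1 - X2) ^ 2) =
        (y1 ^ 2 - y2 ^ 2) ^ 2 - 2 * (c + X1 + X2) * (y1 ^ 2 + y2 ^ 2) * (X1 - X2) ^ 2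
          + ((c + X1 + X2) * (X1 - X2) ^ 2) ^ 2 := by ring
    rw [e6, h1, h2]
    ring

/-- duplication formula, shifted coordinates -/
theorem kpm_dbl {F : Type} [Field F] [CharZero F] (c d e X X' y : F) (hy : y ≠ 0)
    (h1 : y ^ 2 = X ^ 3 + c * X ^ 2 + d * X + e)
    (h3 : X' = ((3 * X ^ 2 + 2 * c * X + d) / (2 * y)) ^ 2 - c - 2 * X) :
    X' * (4 * (X ^ 3 + c * X ^ 2 + d * X + e)) = (X ^ 2 - d) ^ 2 - 4 * e * (2 * X + c) := by
  have e3 : X' * (4 * y ^ 2) = (3 * X ^ 2 + 2 * c * X + d) ^ 2 - (c + 2 * X) * (4 * y ^ 2) := by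
    rw [h3]
    field_simp
    ring
  rw [h1] at e3
  rw [e3]
  ring

theorem st_KPM (hPA : ST_KPA) (hPD : ST_KPD) (hPI : Pool.Agent.Helper42.LS.ST_PI) : ST_KPM := by
  intro F _ _ μ N hN A B hD hv x y hG
  have hNz : (1 : ℤ) ≤ N := by exact_mod_cast hN
  have hNR : (0 : ℝ) < N := by exact_mod_cast hN
  have hlogp : 0 < Real.log μ.q := μ.log_q_pos
  have hA : A ≠ 0 := by
    intro h0
    rw [h0] at hv
    rw [show (6912 : F) * 0 ^ 3 / dsc 0 B = 0 by simp, μ.ord_zero] at hv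
    omega
  obtain ⟨v2, hv2⟩ : ∃ v, kpdEq μ v (2 : F) := ⟨_, kpd_eq_self (by norm_num)⟩
  obtain ⟨v3, hv3⟩ : ∃ v, kpdEq μ v (3 : F) := ⟨_, kpd_eq_self (by norm_num)⟩
  obtain ⟨vA, hvA⟩ : ∃ v, kpdEq μ v A := ⟨_, kpd_eq_self hA⟩
  obtain ⟨vD, hvD⟩ : ∃ v, kpdEq μ v (dsc A B) := ⟨_, kpd_eq_self hD⟩
  have hv20 : 0 ≤ v2 := by
    rw [← hv2.2]
    exact μ.ord_ofNat 2
  have hv30 : 0 ≤ v3 := by
    rw [← hv3.2]
    exact μ.ord_ofNat 3
  have h4 : kpdEq μ (2 * v2) (4 : F) := by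
    have := kpd_eq_sq hv2
    norm_num at this
    exact this
  have h8 : kpdEq μ (3 * v2) (8 : F) := by
    have := kpd_eq_mul h4 hv2
    norm_num at this
    exact kpd_eq_cast this (by ring)
  have h9 : kpdEq μ (2 * v3) (9 : F) := by
    have := kpd_eq_sq hv3
    norm_num at this
    exact this
  have h27 : kpdEq μ (3 * v3) (27 : F) := by
    have := kpd_eq_mul h9 hv3
    norm_num at this
    exact kpd_eq_cast this (by ring)
  have h16 : kpdEq μ (4 * v2) (16 : F) := by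
    have := kpd_eq_mul h4 h4
    norm_num at this
    exact kpd_eq_cast this (by ring)
  have h18 : kpdEq μ (v2 + 2 * v3) (18 : F) := by
    have := kpd_eq_mul hv2 h9
    norm_num at this
    exact this
  have h6912 : kpdEq μ (8 * v2 + 3 * v3) (6912 : F) := by
    have := kpd_eq_mul (kpd_eq_mul h16 h16) h27
    norm_num at this
    exact kpd_eq_cast this (by ring)
  have hA2 : kpdEq μ (2 * vA) (A ^ 2) := kpd_eq_sq hvA
  have hA3 : kpdEq μ (3 * vA) (A ^ 3) := by
    have := kpd_eq_mul hA2 hvA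
    rw [show A ^ 2 * A = A ^ 3 by ring] at this
    exact kpd_eq_cast this (by ring)
  have hj : 8 * v2 + 3 * v3 + 3 * vA - vD = -(N : ℤ) := by
    rw [μ.ord_div (mul_ne_zero h6912.1 hA3.1) hD, hvD.2, (kpd_eq_mul h6912 hA3).2] at hv
    exact hv
  have h4A3 : kpdEq μ (2 * v2 + 3 * vA) (4 * A ^ 3) := kpd_eq_mul h4 hA3
  have h27B2 : kpdEq μ (2 * v2 + 3 * vA) (27 * B ^ 2) := by
    have h := kpd_eq_add (kpd_eq_neg h4A3) (kpd_ge_mono (kpd_ge_of_eq hvD) (by omega))
    rw [show -(4 * A ^ 3) + dsc A B = 27 * B ^ 2 by unfold dsc; ring] at h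
    exact h
  have hB : B ≠ 0 := by
    intro h0
    exact h27B2.1 (by rw [h0]; ring)
  obtain ⟨vB, hvB⟩ : ∃ v, kpdEq μ v B := ⟨_, kpd_eq_self hB⟩
  have hAB : 3 * v3 + 2 * vB = 2 * v2 + 3 * vA :=
    (kpd_eq_unique (kpd_eq_mul h27 (kpd_eq_sq hvB)) h27B2).symm
  -- the shift
  set x0 : F := -3 * B / (2 * A) with hx0
  set c0 : F := 3 * x0 with hc0
  set d0 : F := dsc A B / (4 * A ^ 2) with hd0
  set e0 : F := -(B * dsc A B) / (8 * A ^ 3) with he0
  set r : ℤ := v2 + 2 * v3 + vB - vA with hr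
  have hvx0 : kpdEq μ (v3 + vB - v2 - vA) x0 := by
    have h : kpdEq μ (v3 + vB) (x0 * (2 * A)) := by
      rw [hx0, show -3 * B / (2 * A) * (2 * A) = -(3 * B) by field_simp]
      exact kpd_eq_neg (kpd_eq_mul hv3 hvB)
    exact kpd_eq_cast (kpd_eq_of_mul h (kpd_eq_mul hv2 hvA)) (by ring)
  have hvc0 : kpdEq μ r (4 * c0) := by
    refine kpd_eq_cast (kpd_eq_mul h4 (kpd_eq_mul hv3 hvx0)) (by rw [hr]; ring)
  have hvd0 : kpdEq μ (vD - 2 * v2 - 2 * vA) d0 := by
    have h : kpdEq μ vD (d0 * (4 * A ^ 2)) := by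
      rw [hd0, div_mul_cancel₀ _ (mul_ne_zero (by norm_num) hA2.1)]
      exact hvD
    exact kpd_eq_cast (kpd_eq_of_mul h (kpd_eq_mul h4 hA2)) (by ring)
  have hve0 : kpdEq μ (vB + vD - 3 * v2 - 3 * vA) e0 := by
    have h : kpdEq μ (vB + vD) (e0 * (8 * A ^ 3)) := by
      rw [he0, div_mul_cancel₀ _ (mul_ne_zero (by norm_num) hA3.1)]
      exact kpd_eq_neg (kpd_eq_mul hvB hvD)
    exact kpd_eq_cast (kpd_eq_of_mul h (kpd_eq_mul h8 hA3)) (by ring)
  have hshift : ∀ X : F, X ^ 3 + c0 * X ^ 2 + d0 * X + e0 = (X + x0) ^ 3 + A * (X + x0) + B := by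
    intro X
    have h1 : d0 = 3 * x0 ^ 2 + A := by
      rw [hd0, hx0]
      unfold dsc
      field_simp
      ring
    have h2 : e0 = x0 ^ 3 + A * x0 + B := by
      rw [he0, hx0]
      unfold dsc
      field_simp
      ring
    rw [h1, h2, hc0]
    ring
  -- the scaling
  obtain ⟨ϖ, hp0, hϖ, -⟩ := μ.exists_unif
  set π : F := ϖ ^ (-r) with hπ
  have hπ0 : π ≠ 0 := zpow_ne_zero _ hp0
  have hvπ : kpdEq μ (-r) π := by
    refine ⟨hπ0, ?_⟩
    rw [hπ, μ.ord_zpow, hϖ, mul_one]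
  set c : F := c0 * π with hc
  set d : F := d0 * π ^ 2 with hd
  set e : F := e0 * π ^ 3 with he
  have hπ2 : kpdEq μ (2 * -r) (π ^ 2) := kpd_eq_sq hvπ
  have hπ3 : kpdEq μ (3 * -r) (π ^ 3) := by
    have := kpd_eq_mul hπ2 hvπ
    rw [show π ^ 2 * π = π ^ 3 by ring] at this
    exact kpd_eq_cast this (by ring)
  have hcn : μ.nr (4 * c) = 1 := by
    have h := kpd_eq_mul hvc0 hvπ
    rw [show 4 * c0 * π = 4 * c by rw [hc]; ring] at h
    rw [kpd_nr_of_eq h]
    simp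
  have hdn : μ.nr d ≤ μ.q ^ (-(N : ℤ)) := by
    rw [kpd_nr_le]
    exact kpd_ge_mono (kpd_ge_of_eq (kpd_eq_mul hvd0 hπ2)) (by rw [hr]; omega)
  have hen : μ.nr e = μ.q ^ (-(N : ℤ)) := by
    rw [kpd_nr_iff]
    exact kpd_eq_cast (kpd_eq_mul hve0 hπ3) (by rw [hr]; omega)
  set X : ℕ → F := fun k => (x k - x0) * π with hX
  have hGX : ∀ k, 1 ≤ k → X k ^ 3 + c * X k ^ 2 + d * X k + e = cu A B (x k) * π ^ 3 := by
    intro k _
    have h := hshift (x k - x0)
    rw [sub_add_cancel] at h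
    have h2 : X k ^ 3 + c * X k ^ 2 + d * X k + e =
        ((x k - x0) ^ 3 + c0 * (x k - x0) ^ 2 + d0 * (x k - x0) + e0) * π ^ 3 := by
      rw [hc, hd, he]
      simp only [hX]
      ring
    rw [h2, h]
    unfold cu
    ring
  have hcurve : ∀ k, 1 ≤ k → y k ^ 2 = cu A B (x k) := by
    intro k hk
    have := hG.curve k hk
    rw [this]
    unfold cu
    ring
  have hcune : ∀ k, 1 ≤ k → cu A B (x k) ≠ 0 := by
    intro k hk
    rw [← hcurve k hk]
    exact pow_ne_zero 2 (hG.yne k hk)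
  have hGne : ∀ k, 1 ≤ k → X k ^ 3 + c * X k ^ 2 + d * X k + e ≠ 0 := by
    intro k hk
    rw [hGX k hk]
    exact mul_ne_zero (hcune k hk) (pow_ne_zero 3 hπ0)
  have hcurve0 : ∀ k, 1 ≤ k → y k ^ 2 = (x k - x0) ^ 3 + c0 * (x k - x0) ^ 2 + d0 * (x k - x0) + e0 := by
    intro k hk
    rw [hshift (x k - x0), sub_add_cancel, hcurve k hk]
    rfl
  have hSP : ∀ k l : ℕ, 1 ≤ l → l < k →
      X k ≠ X l ∧
      (X (k + l) + X (k - l)) * (X k - X l) ^ 2 =
        2 * ((X k + X l) * (d + X k * X l) + 2 * c * X k * X l + 2 * e) ∧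
      X (k + l) * X (k - l) * (X k - X l) ^ 2 =
        (X k * X l - d) ^ 2 - 4 * e * (X k + X l + c) := by
    intro k l hl hlk
    have hne := hG.xne k l hl hlk
    have h := kpm_sp c0 d0 e0 (x k - x0) (x l - x0) (x (k + l) - x0) (x (k - l) - x0) (y k) (y l)
      (fun h => hne (sub_left_inj.1 h)) (hcurve0 k (by omega)) (hcurve0 l hl)
      (by rw [hG.addx k l hl hlk, show x k - x0 - (x l - x0) = x k - x l by ring, hc0]; ring)
      (by rw [hG.subx k l hl hlk, show x k - x0 - (x l - x0) = x k - x l by ring, hc0]; ring)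
    refine ⟨fun h => hne ?_, ?_, ?_⟩
    · exact sub_left_inj.1 (mul_right_cancel₀ hπ0 h)
    · have h2 : (X (k + l) + X (k - l)) * (X k - X l) ^ 2 =
          ((x (k + l) - x0 + (x (k - l) - x0)) * (x k - x0 - (x l - x0)) ^ 2) * π ^ 3 := by
        simp only [hX]
        ring
      rw [h2, h.1, hc, hd, he]
      simp only [hX]
      ring
    · have h2 : X (k + l) * X (k - l) * (X k - X l) ^ 2 =
          ((x (k + l) - x0) * (x (k - l) - x0) * (x k - x0 - (x l - x0)) ^ 2) * π ^ 4 := by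
        simp only [hX]
        ring
      rw [h2, h.2, hc, hd, he]
      simp only [hX]
      ring
  have hdbl : ∀ k, 1 ≤ k →
      X (2 * k) * (4 * (X k ^ 3 + c * X k ^ 2 + d * X k + e)) =
        (X k ^ 2 - d) ^ 2 - 4 * e * (2 * X k + c) := by
    intro k hk
    have hd1 : d0 = 3 * x0 ^ 2 + A := by
      have h1 := hshift 1
      have h3 := hshift 0
      simp only [hc0] at h1 h3
      linear_combination h1 - h3
    have h := kpm_dbl c0 d0 e0 (x k - x0) (x (2 * k) - x0) (y k) (hG.yne k hk) (hcurve0 k hk)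
      (by
        rw [hG.dblx k hk, show 3 * (x k - x0) ^ 2 + 2 * c0 * (x k - x0) + d0
          = 3 * x k ^ 2 + 2 * 0 * x k + A by rw [hd1, hc0]; ring, hc0]
        ring)
    have h2 : X (2 * k) * (4 * (X k ^ 3 + c * X k ^ 2 + d * X k + e)) =
        ((x (2 * k) - x0) * (4 * ((x k - x0) ^ 3 + c0 * (x k - x0) ^ 2 + d0 * (x k - x0) + e0))) *
          π ^ 4 := by
      rw [hc, hd, he]
      simp only [hX]
      ring
    rw [h2, h, hc, hd, he]
    simp only [hX]
    ring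
  have hPDk : ∀ k, 1 ≤ k → alpK μ N (X (2 * k)) = min (2 * alpK μ N (X k)) (N - 2 * alpK μ N (X k)) ∧
      4 * upK μ N (X k) = upK μ N (X (2 * k)) +
        Real.log (μ.nr (4 * (X k ^ 3 + c * X k ^ 2 + d * X k + e))) := fun k hk =>
    hPD F μ N hN c d e hcn hdn hen (X k) (X (2 * k)) (hGne k hk) (hdbl k hk)
  have hPAk : ∀ k l : ℕ, 1 ≤ l → l < k → (0 < alpK μ N (X k) ∨ 0 < alpK μ N (X l)) →
      (alpK μ N (X (k + l)) = |alpK μ N (X k) - alpK μ N (X l)| ∧
        alpK μ N (X (k - l)) = min (alpK μ N (X k) + alpK μ N (X l))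
          (N - (alpK μ N (X k) + alpK μ N (X l)))) ∨
      (alpK μ N (X (k - l)) = |alpK μ N (X k) - alpK μ N (X l)| ∧
        alpK μ N (X (k + l)) = min (alpK μ N (X k) + alpK μ N (X l))
          (N - (alpK μ N (X k) + alpK μ N (X l)))) := fun k l hl hlk h =>
    hPA F μ N hN c d e hcn hdn hen (X k) (X l) (X (k + l)) (X (k - l)) (hSP k l hl hlk).1
      (hSP k l hl hlk).2.1 (hSP k l hl hlk).2.2 h
  have hb := fun k : ℕ => kpm_alp_bounds μ N (X k)
  have hnext : ∀ k : ℕ, 2 ≤ k → alpK μ N (X 1) = 0 → 0 < alpK μ N (X k) →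
      alpK μ N (X (k - 1)) = alpK μ N (X k) ∧ alpK μ N (X (k + 1)) = alpK μ N (X k) := by
    intro k hk h1 h2
    have hbk := hb k
    have hmin : min (alpK μ N (X k)) (N - alpK μ N (X k)) = alpK μ N (X k) :=
      min_eq_left (by linarith [hbk.2])
    rcases hPAk k 1 le_rfl (by omega) (Or.inl h2) with ⟨h3, h4⟩ | ⟨h3, h4⟩
    · rw [h1, sub_zero, abs_of_nonneg hbk.1] at h3
      rw [h1, add_zero, hmin] at h4
      exact ⟨h4, h3⟩
    · rw [h1, sub_zero, abs_of_nonneg hbk.1] at h3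
      rw [h1, add_zero, hmin] at h4
      exact ⟨h3, h4⟩
  have hf : ∀ k : ℕ, 1 ≤ k → alpK μ N (X k) = N * nd (k * (alpK μ N (X 1) / N)) := by
    refine hPI N hN (fun k => alpK μ N (X k)) (fun k _ => hb k) ?_ ?_
    · have := (hPDk 1 le_rfl).1
      simpa using this
    · intro k hk
      by_cases hpos : 0 < alpK μ N (X k) ∨ 0 < alpK μ N (X 1)
      · rcases hPAk k 1 le_rfl (by omega) hpos with ⟨h3, h4⟩ | ⟨h3, h4⟩
        · exact Or.inr ⟨h3, h4⟩
        · exact Or.inl ⟨h3, h4⟩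
      · push Not at hpos
        have hk0 : alpK μ N (X k) = 0 := le_antisymm hpos.1 (hb k).1
        have h10 : alpK μ N (X 1) = 0 := le_antisymm hpos.2 (hb 1).1
        have hk1 : alpK μ N (X (k + 1)) = 0 := by
          by_contra hne
          have hlt : 0 < alpK μ N (X (k + 1)) := lt_of_le_of_ne (hb _).1 (Ne.symm hne)
          have := (hnext (k + 1) (by omega) h10 hlt).1
          rw [Nat.add_sub_cancel, hk0] at this
          linarith
        have hk2 : alpK μ N (X (k - 1)) = 0 := by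
          by_contra hne
          have hlt : 0 < alpK μ N (X (k - 1)) := lt_of_le_of_ne (hb _).1 (Ne.symm hne)
          rcases Nat.lt_or_ge (k - 1) 2 with h | h
          · have : k - 1 = 1 := by omega
            rw [this] at hne
            exact hne h10
          · have := (hnext (k - 1) h h10 hlt).2
            rw [Nat.sub_add_cancel (by omega), hk0] at this
            linarith
        left
        rw [hk0, h10, hk1, hk2]
        refine ⟨by simp, ?_⟩
        rw [add_zero, min_eq_left (by linarith)]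
  obtain ⟨a, ha⟩ := kpm_alp_int μ N (X 1)
  refine ⟨r, a, fun k => upK μ N (X k) - r * Real.log μ.q, ?_, ?_, ?_, ?_, ?_⟩
  · rw [(kpd_eq_mul h16 hvD).2, hr]
    omega
  · intro k hk
    have h := (hPDk k hk).2
    rw [hGX k hk] at h
    have h4cu : 4 * cu A B (x k) ≠ 0 := mul_ne_zero (by norm_num) (hcune k hk)
    obtain ⟨g, hg⟩ : ∃ g, kpdEq μ g (4 * cu A B (x k)) := ⟨_, kpd_eq_self h4cu⟩
    have hg2 := kpd_eq_mul hg hπ3
    rw [show 4 * cu A B (x k) * π ^ 3 = 4 * (cu A B (x k) * π ^ 3) by ring] at hg2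
    rw [kpd_log_nr hg2] at h
    rw [kpd_log_nr hg]
    push_cast at h
    simp only
    linarith
  · refine ⟨Real.log (max (μ.q ^ r * max 1 (μ.nr x0)) 1) - r * Real.log μ.q, fun k hk => ?_⟩
    have hpr : 0 < μ.q ^ r := by
      exact zpow_pos μ.q_pos _
    have hup : upK μ N (X k) ≤ Real.log (max (μ.nr (X k)) 1) := by
      unfold upK
      have h1 := hb k
      have : 0 ≤ alpK μ N (X k) * (N - alpK μ N (X k)) / N * Real.log μ.q := by
        have h2 : 0 ≤ (N : ℝ) - alpK μ N (X k) := by linarith [h1.2]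
        have h3 := h1.1
        positivity
      linarith
    have hnrX : μ.nr (X k) = μ.nr (x k - x0) * μ.q ^ r := by
      have : μ.nr (X k) = μ.nr (x k - x0) * μ.nr π := by
        simp only [hX]
        rw [μ.nr_mul]
      rw [this, kpd_nr_of_eq hvπ, neg_neg]
    have hsub : μ.nr (x k - x0) ≤ max (μ.nr (x k)) (μ.nr x0) := by
      exact μ.nr_sub_le _ _
    have hmax : max (μ.nr (X k)) 1 ≤ max (μ.nr (x k)) 1 * max (μ.q ^ r * max 1 (μ.nr x0)) 1 := by
      have hm1 : 1 ≤ max (μ.nr (x k)) 1 := le_max_right _ _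
      have hm2 : 1 ≤ max (μ.q ^ r * max 1 (μ.nr x0)) 1 := le_max_right _ _
      refine max_le ?_ ?_
      · rw [hnrX]
        have h1 : μ.nr (x k - x0) ≤ max (μ.nr (x k)) 1 * max 1 (μ.nr x0) := by
          refine hsub.trans (max_le ?_ ?_)
          · calc μ.nr (x k) ≤ max (μ.nr (x k)) 1 := le_max_left _ _
              _ = max (μ.nr (x k)) 1 * 1 := (mul_one _).symm
              _ ≤ _ := mul_le_mul_of_nonneg_left (le_max_left _ _) (by linarith)
          · calc μ.nr x0 ≤ max 1 (μ.nr x0) := le_max_right _ _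
              _ = 1 * max 1 (μ.nr x0) := (one_mul _).symm
              _ ≤ _ := mul_le_mul_of_nonneg_right hm1 (le_trans zero_le_one (le_max_left _ _))
        calc μ.nr (x k - x0) * μ.q ^ r ≤ (max (μ.nr (x k)) 1 * max 1 (μ.nr x0)) * μ.q ^ r :=
              mul_le_mul_of_nonneg_right h1 hpr.le
          _ = max (μ.nr (x k)) 1 * (μ.q ^ r * max 1 (μ.nr x0)) := by ring
          _ ≤ _ := mul_le_mul_of_nonneg_left (le_max_left _ _) (by linarith)
      · nlinarith
    have hlog := Real.log_le_log (lt_of_lt_of_le one_pos (le_max_right _ _)) hmax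
    rw [Real.log_mul (by positivity) (by positivity)] at hlog
    simp only
    linarith
  · intro k hk
    have hfk := hf k hk
    have hND : alpK μ N (X k) * (N - alpK μ N (X k)) / N =
        N * (1 / 6 - B2 (k * (a / (2 * N)))) := by
      have ht : (k : ℝ) * (alpK μ N (X 1) / N) = k * (a / (2 * N)) := by
        rw [← ha]
        field_simp
      rw [ht] at hfk
      rw [hfk, ← kpm_nd_b2]
      field_simp
    have h0 : 0 ≤ Real.log (max (μ.nr (X k)) 1) := Real.log_nonneg (le_max_right _ _)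
    simp only
    unfold upK
    rw [hND]
    linarith
  · intro h52 h53 hA1 k hk hxk
    have hz2 : v2 = 0 := by rw [← hv2.2]; exact h52
    have hz3 : v3 = 0 := by rw [← hv3.2]; exact h53
    have hvA1 : 1 ≤ vA := by
      by_contra hcon
      have h1 : (1 : ℝ) ≤ μ.nr A := by
        rw [kpd_nr_of_eq hvA]
        exact one_le_zpow₀ μ.one_lt_q.le (by omega)
      linarith
    have hr1 : 1 ≤ r := by rw [hr]; omega
    have hx0ne : x k ≠ 0 := by
      intro h0
      rw [h0, μ.nr_zero] at hxk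
      linarith
    obtain ⟨w, hw⟩ : ∃ w, kpdEq μ w (x k) := ⟨_, kpd_eq_self hx0ne⟩
    have hw0 : w ≤ 0 := by
      by_contra hcon
      rw [kpd_nr_of_eq hw] at hxk
      have : μ.q ^ (-w) < 1 := zpow_lt_one_of_neg₀ μ.one_lt_q (by omega)
      linarith
    have hXv : kpdEq μ (w + -r) (X k) :=
      kpd_eq_mul (kpd_eq_sub hw (kpd_ge_mono (kpd_ge_of_eq hvx0) (by omega))) hvπ
    have halp : alpK μ N (X k) = 0 := kpd_alp_nonpos hXv (by omega)
    simp only
    unfold upK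
    rw [halp, kpd_logmax_neg hXv (by omega)]
    push_cast
    have hwR : (w : ℝ) ≤ 0 := by exact_mod_cast hw0
    have h1 : -(w : ℝ) * Real.log μ.q ≥ 0 := mul_nonneg (by linarith) hlogp.le
    have h2 : -((w : ℝ) + -(r : ℝ)) * Real.log μ.q - 0 * ((N : ℝ) - 0) / N * Real.log μ.q
      - r * Real.log μ.q = -(w : ℝ) * Real.log μ.q := by ring
    linarith

end Pool.Agent.Helper42.LK
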